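import Pool.Agent.Q288.Prophet.Pr

/-! Expectations. -/

open MeasureTheory ProbabilityTheory
open scoped BigOperators ENNReal

namespace Pool.Agent.Q288.Prophet

lemma type_lemma {N m : ℕ} (f : Fin N → Finset (Fin m)) (K : ℕ) :
    ∃ S : Finset (Fin m), (S = ∅ ∨ K ≤ (Finset.univ.filter (fun b => f b = S)).card) ∧
      ∑ b, (f b).card ≤ N * S.card + 2 ^ m * K * m := by
  classical
  set G : Finset (Finset (Fin m)) :=
    Finset.univ.filter (fun S => K ≤ (Finset.univ.filter (fun b => f b = S)).card) with hG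
  have hfew : (Finset.univ.filter (fun b => f b ∉ G)).card ≤ 2 ^ m * K := by
    have h1 : (Finset.univ.filter (fun b => f b ∉ G)).card
        = ∑ S ∈ Gᶜ, ((Finset.univ.filter (fun b => f b ∉ G)).filter (fun b => f b = S)).card := by
      apply Finset.card_eq_sum_card_fiberwise
      intro b hb
      simpa using hb
    rw [h1]
    have h2 : ∀ S ∈ Gᶜ, ((Finset.univ.filter (fun b => f b ∉ G)).filter (fun b => f b = S)).card
        ≤ K := by
      intro S hS
      have h3 : ((Finset.univ.filter (fun b => f b ∉ G)).filter (fun b => f b = S)).card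
          ≤ (Finset.univ.filter (fun b => f b = S)).card :=
        Finset.card_le_card (fun b hb => by
          simp only [Finset.mem_filter, Finset.mem_univ, true_and] at hb ⊢
          exact hb.2)
      have h4 : ¬ K ≤ (Finset.univ.filter (fun b => f b = S)).card := by
        intro h
        rw [Finset.mem_compl] at hS
        exact hS (by simpa [hG] using h)
      omega
    calc ∑ S ∈ Gᶜ, ((Finset.univ.filter (fun b => f b ∉ G)).filter (fun b => f b = S)).card
        ≤ ∑ S ∈ Gᶜ, K := Finset.sum_le_sum h2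
      _ = Gᶜ.card * K := by simp
      _ ≤ 2 ^ m * K := by
          apply Nat.mul_le_mul_right
          have := Finset.card_le_univ (Gᶜ)
          simpa [Fintype.card_finset] using this
  have hcard : ∀ S : Finset (Fin m), S.card ≤ m := by
    intro S
    simpa using Finset.card_le_univ S
  have main : ∀ s : ℕ, (∀ S ∈ G, S.card ≤ s) →
      ∑ b, (f b).card ≤ N * s + 2 ^ m * K * m := by
    intro s hs
    calc ∑ b, (f b).card ≤ ∑ b, (s + if f b ∉ G then m else 0) := by
          refine Finset.sum_le_sum (fun b _ => ?_)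
          by_cases h : f b ∈ G
          · rw [if_neg (not_not.2 h)]
            exact (hs _ h).trans (Nat.le_add_right _ _)
          · rw [if_pos h]
            exact (hcard _).trans (Nat.le_add_left _ _)
      _ = N * s + (Finset.univ.filter (fun b => f b ∉ G)).card * m := by
          rw [Finset.sum_add_distrib, ← Finset.sum_filter]
          simp
      _ ≤ N * s + 2 ^ m * K * m := by
          have := Nat.mul_le_mul_right m hfew
          omega
  rcases G.eq_empty_or_nonempty with h0 | h0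
  · refine ⟨∅, Or.inl rfl, ?_⟩
    simpa using main 0 (by simp [h0])
  · obtain ⟨S, hS, hmax⟩ := Finset.exists_max_image G Finset.card h0
    refine ⟨S, Or.inr ?_, main S.card hmax⟩
    simpa [hG] using hS

/-- The total value accepted. -/
noncomputable def algValue {V E : Type} (ends : E → Sym2 V) (order : List E) (T : E → WithTop ℝ)
    (x : E → ℝ) : ℝ := ∑ e ∈ greedy ends T x order ∅, x e

section
variable {N m : ℕ} {p ε v D : ℝ}

lemma xv_nonneg (hv : 0 ≤ v) (hD : 0 ≤ D) (ω : (Fin N ⊕ Bool) → Fin m → Bool)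
    (e : (Fin N ⊕ Bool) × Fin m) : 0 ≤ xv N m v D ω e := by
  rcases e with ⟨b | c, a⟩
  · simp only [xv]
    split_ifs <;> simp [hv]
  · cases c
    · simp [xv]
    · simp only [xv]
      split_ifs <;> simp [hD]

lemma integral_xv_inl (hp0 : 0 ≤ p) (hp1 : p ≤ 1) (he0 : 0 ≤ ε) (he1 : ε ≤ 1) (b : Fin N)
    (a : Fin m) : ∫ ω, xv N m v D ω (Sum.inl b, a) ∂mu N m p ε = p * v := by
  have := integral_mu_coord (N := N) (m := m) hp0 hp1 he0 he1 (Sum.inl b) a
    (fun t => if t then v else 0)
  simp only [xv]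
  rw [this]
  simp [qq]

lemma integral_xv_inr (hp0 : 0 ≤ p) (hp1 : p ≤ 1) (he0 : 0 ≤ ε) (he1 : ε ≤ 1)
    (a : Fin m) : ∫ ω, xv N m v D ω (Sum.inr true, a) ∂mu N m p ε = ε * D := by
  have := integral_mu_coord (N := N) (m := m) hp0 hp1 he0 he1 (Sum.inr true) a
    (fun t => if t then D else 0)
  simp only [xv]
  rw [this]
  simp [qq]

lemma alg_upper (hp0 : 0 ≤ p) (hp1 : p ≤ 1) (he0 : 0 < ε) (he1 : ε ≤ 1) (hv : 0 ≤ v)
    (hD : 0 ≤ D) (hεD : ε * D = 1) (hN : 0 < N) (hpv : p * v * N = 1)
    {l1 l2 l3 : List ((Fin N ⊕ Bool) × Fin m)}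
    (h1 : ∀ e, e ∈ l1 ↔ ∃ b, e.1 = Sum.inl b) (h2 : ∀ e, e ∈ l2 ↔ e.1 = Sum.inr false)
    (h3 : ∀ e, e ∈ l3 ↔ e.1 = Sum.inr true)
    (T : ((Fin N ⊕ Bool) × Fin m) → WithTop ℝ) (K : ℕ) :
    ∫ ω, algValue (en N m) (l1 ++ l2 ++ l3) T (xv N m v D ω) ∂mu N m p ε
      ≤ m + 1 + 2 * D + 2 ^ m * K * m / N + (m + m * D) * (m ^ 2 * (1 - p ^ 2) ^ K) := by
  classical
  have hprob := mu_prob (N := N) (m := m) hp0 hp1 he0.le he1
  set f : Fin N → Finset (Fin m) := fun b =>
    Finset.univ.filter (fun a => T (Sum.inl b, a) ≤ (v : WithTop ℝ)) with hf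
  obtain ⟨S, hS, hsum⟩ := type_lemma f K
  set H1 : Finset (Fin N × Fin m) :=
    Finset.univ.filter (fun q => T (Sum.inl q.1, q.2) ≤ (v : WithTop ℝ)) with hH1
  have hH1card : H1.card = ∑ b, (f b).card := by
    rw [Finset.card_filter, Fintype.sum_prod_type]
    refine Finset.sum_congr rfl (fun b _ => ?_)
    rw [hf, Finset.card_filter]
  set H2 : Finset (Fin m) :=
    Finset.univ.filter (fun a => T (Sum.inr false, a) ≤ ((1 : ℝ) : WithTop ℝ)) with hH2
  set U : Finset (Fin m) := Finset.univ \ (H2 ∪ S) with hU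
  set Bs : Finset (Fin N) := Finset.univ.filter (fun b => f b = S) with hBs
  set bad : Set ((Fin N ⊕ Bool) → Fin m → Bool) :=
    ⋃ q ∈ (Finset.univ.filter (fun q : Fin m × Fin m => q.1 ∈ S ∧ q.2 ∈ S ∧ q.1 ≠ q.2)),
      {ω | ∀ b ∈ Bs, ¬ (ω (Sum.inl b) q.1 = true ∧ ω (Sum.inl b) q.2 = true)} with hbad
  have hbadP : (mu N m p ε).real bad ≤ m ^ 2 * (1 - p ^ 2) ^ K := by
    have hp2 : 0 ≤ 1 - p ^ 2 := by nlinarith
    have hp2' : 1 - p ^ 2 ≤ 1 := by nlinarith [sq_nonneg p]
    rcases hS with hS | hS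
    · have : bad = ∅ := by
        rw [hbad]
        simp [hS]
      rw [this]
      simp only [measureReal_empty]
      positivity
    · have hb1 : (mu N m p ε).real bad ≤
          ∑ q ∈ (Finset.univ.filter (fun q : Fin m × Fin m => q.1 ∈ S ∧ q.2 ∈ S ∧ q.1 ≠ q.2)),
            (mu N m p ε).real
              {ω | ∀ b ∈ Bs, ¬ (ω (Sum.inl b) q.1 = true ∧ ω (Sum.inl b) q.2 = true)} :=
        measureReal_biUnion_finset_le _ _
      refine hb1.trans ?_
      have hb2 : ∀ q ∈ (Finset.univ.filter (fun q : Fin m × Fin m => q.1 ∈ S ∧ q.2 ∈ S ∧ q.1 ≠ q.2)),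
            (mu N m p ε).real
              {ω | ∀ b ∈ Bs, ¬ (ω (Sum.inl b) q.1 = true ∧ ω (Sum.inl b) q.2 = true)}
            ≤ (1 - p ^ 2) ^ K := by
        intro q hq
        simp only [Finset.mem_filter, Finset.mem_univ, true_and] at hq
        rw [measureReal_def, mu_pair hp0 hp1 he0.le he1 hq.2.2, ENNReal.toReal_ofReal (by positivity)]
        exact pow_le_pow_of_le_one hp2 hp2' hS
      refine (Finset.sum_le_sum hb2).trans ?_
      rw [Finset.sum_const, nsmul_eq_mul]
      have hb3 : (Finset.univ.filter (fun q : Fin m × Fin m =>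
          q.1 ∈ S ∧ q.2 ∈ S ∧ q.1 ≠ q.2)).card ≤ m ^ 2 := by
        refine (Finset.card_le_univ _).trans ?_
        simp [Fintype.card_prod, sq]
      have hb4 : ((Finset.univ.filter (fun q : Fin m × Fin m =>
          q.1 ∈ S ∧ q.2 ∈ S ∧ q.1 ≠ q.2)).card : ℝ) ≤ m ^ 2 := by exact_mod_cast hb3
      exact mul_le_mul_of_nonneg_right hb4 (by positivity)
  have hact : ∀ ω b a, T (Sum.inl b, a) ≤ (xv N m v D ω (Sum.inl b, a) : WithTop ℝ) → (b, a) ∈ H1 := by
    intro ω b a h
    simp only [hH1, Finset.mem_filter, Finset.mem_univ, true_and]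
    refine h.trans ?_
    rw [WithTop.coe_le_coe]
    simp only [xv]
    split_ifs
    · exact le_refl _
    · exact hv
  have hDx : ∀ ω : (Fin N ⊕ Bool) → Fin m → Bool, ∀ a : Fin m, xv N m v D ω (Sum.inr true, a) ≤ D := by
    intro ω a
    simp only [xv]
    split_ifs
    · exact le_refl _
    · exact hD
  -- pathwise bound
  have hpath : ∀ ω, algValue (en N m) (l1 ++ l2 ++ l3) T (xv N m v D ω) ≤
      ∑ q ∈ H1, xv N m v D ω (Sum.inl q.1, q.2) + (((H2 \ S).card : ℝ) + 1)
        + (2 * D + ∑ a ∈ U, xv N m v D ω (Sum.inr true, a))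
        + bad.indicator (fun _ => (m + m * D : ℝ)) ω := by
    intro ω
    by_cases hω : ω ∈ bad
    · rw [Set.indicator_of_mem hω]
      have := path_bound_bad (l := l1 ++ l2 ++ l3) T (xv N m v D ω) (xv_nonneg hv hD ω) D hD
        (hDx ω) (fun a => rfl) H1 (hact ω)
      have h4 : 0 ≤ ∑ a ∈ U, xv N m v D ω (Sum.inr true, a) :=
        Finset.sum_nonneg (fun a _ => xv_nonneg hv hD ω _)
      have h5 : (0 : ℝ) ≤ (H2 \ S).card := Nat.cast_nonneg _
      unfold algValue
      linarith
    · rw [Set.indicator_of_notMem hω, add_zero]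
      refine path_bound h1 h2 h3 T (xv N m v D ω) (xv_nonneg hv hD ω) D hD (hDx ω)
        (fun a => rfl) H1 (hact ω) H2 (by simp [hH2]) S ?_
      intro a ha a' ha' hne
      by_contra hcon
      apply hω
      rw [hbad, Set.mem_iUnion₂]
      refine ⟨(a, a'), by simp [ha, ha', hne], ?_⟩
      intro b hb hab
      apply hcon
      have hfb : f b = S := by simpa [hBs] using hb
      have ha1 : a ∈ f b := hfb ▸ ha
      have ha2 : a' ∈ f b := hfb ▸ ha'
      simp only [hf, Finset.mem_filter, Finset.mem_univ, true_and] at ha1 ha2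
      refine ⟨b, ?_, ?_⟩
      · simpa [xv, hab.1] using ha1
      · simpa [xv, hab.2] using ha2
  have hint : ∀ g : ((Fin N ⊕ Bool) → Fin m → Bool) → ℝ, Integrable g (mu N m p ε) :=
    fun g => Integrable.of_finite
  have hI := integral_mono (hint _) (hint _) hpath
  refine hI.trans ?_
  rw [integral_add (hint _) (hint _), integral_add (hint _) (hint _),
    integral_add (hint _) (hint _), integral_add (hint _) (hint _), integral_add (hint _) (hint _),
    integral_finsetSum _ (fun _ _ => hint _), integral_finsetSum _ (fun _ _ => hint _),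
    integral_indicator_const _ (Set.toFinite _).measurableSet]
  simp only [integral_const, measureReal_def, measure_univ, ENNReal.toReal_one, smul_eq_mul,
    one_mul]
  rw [Finset.sum_congr rfl (fun q _ => integral_xv_inl (v := v) (D := D) hp0 hp1 he0.le he1 q.1 q.2),
    Finset.sum_congr rfl (fun a _ => integral_xv_inr (v := v) (D := D) hp0 hp1 he0.le he1 a)]
  rw [Finset.sum_const, Finset.sum_const, nsmul_eq_mul, nsmul_eq_mul, hεD, mul_one]
  have hN' : (0 : ℝ) < N := by exact_mod_cast hN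
  have hpv' : p * v = 1 / N := by
    field_simp
    linarith
  have e1 : (H1.card : ℝ) * (p * v) ≤ S.card + 2 ^ m * K * m / N := by
    rw [hpv', hH1card]
    have : ((∑ b, (f b).card : ℕ) : ℝ) ≤ N * S.card + 2 ^ m * K * m := by exact_mod_cast hsum
    rw [mul_one_div, div_le_iff₀ hN']
    calc ((∑ b, (f b).card : ℕ) : ℝ) ≤ N * S.card + 2 ^ m * K * m := this
      _ = (S.card + 2 ^ m * K * m / N) * N := by field_simp
  have e2 : ((H2 \ S).card : ℝ) + U.card + S.card = m := by
    have : (H2 \ S).card + U.card + S.card = m := by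
      have d1 : Disjoint (H2 \ S) S := Finset.sdiff_disjoint
      have d2 : Disjoint U (H2 ∪ S) := Finset.sdiff_disjoint
      have c1 : (H2 \ S).card + S.card = (H2 ∪ S).card := by
        rw [← Finset.card_union_of_disjoint d1, Finset.sdiff_union_self_eq_union]
      have c2 : U.card + (H2 ∪ S).card = m := by
        have c3 := Finset.card_sdiff_add_card_eq_card (Finset.subset_univ (H2 ∪ S))
        rw [Finset.card_univ, Fintype.card_fin] at c3
        rw [hU]
        convert c3
      omega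
    exact_mod_cast this
  have e3 : (mu N m p ε bad).toReal * (m + m * D) ≤ (m + m * D) * (m ^ 2 * (1 - p ^ 2) ^ K) := by
    rw [mul_comm]
    refine mul_le_mul_of_nonneg_left ?_ (by positivity)
    exact hbadP
  linarith

lemma opt_lower_int (hp0 : 0 ≤ p) (hp1 : p ≤ 1) (he0 : 0 < ε) (he1 : ε ≤ 1)
    (hεD : ε * D = 1) :
    N * (v * (1 - (1 - p) ^ m)) + m * (2 - ε) ≤ ∫ ω, maxForest (en N m) (xv N m v D ω) ∂mu N m p ε := by
  classical
  have hprob := mu_prob (N := N) (m := m) hp0 hp1 he0.le he1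
  have hint : ∀ g : ((Fin N ⊕ Bool) → Fin m → Bool) → ℝ, Integrable g (mu N m p ε) :=
    fun g => Integrable.of_finite
  have hI := integral_mono (hint _) (hint _) (fun ω => opt_lower (v := v) (D := D) ω)
  refine le_trans ?_ hI
  rw [integral_add (hint _) (hint _), integral_finsetSum _ (fun _ _ => hint _),
    integral_finsetSum _ (fun _ _ => hint _)]
  rw [Finset.sum_congr rfl (fun b _ => integral_active hp0 hp1 he0.le he1 b v)]
  rw [Finset.sum_congr rfl (fun a _ => integral_mu_coord (N := N) hp0 hp1 he0.le he1 (Sum.inr true) a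
    (fun t => if t then D else 1))]
  simp only [Finset.sum_const, Finset.card_univ, Fintype.card_fin, nsmul_eq_mul, qq, if_true,
    Bool.false_eq_true, if_false]
  rw [hεD]
  apply le_of_eq
  ring

end

end Pool.Agent.Q288.Prophet
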