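import Mathlib

/-! Non-adaptive greedy on a graphic matroid: definitions and graph facts. -/

open MeasureTheory ProbabilityTheory
open scoped BigOperators ENNReal

namespace Pool.Agent.Q288.Prophet

/-- The graph on `V` whose edges are the `ends e`, `e ∈ F`. -/
def gr {V E : Type} (ends : E → Sym2 V) (F : Finset E) : SimpleGraph V :=
  SimpleGraph.fromEdgeSet (ends '' (F : Set E))

/-- `F` is a forest: the graph with edge set `F` has no cycle. -/
def IsForest {V E : Type} (ends : E → Sym2 V) (F : Finset E) : Prop :=
  (gr ends F).IsAcyclic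

open Classical in
/-- The set of edges accepted when the edges of the list arrive one after the other, the edges of
`F` being already accepted: `e` is accepted exactly when its value `x e` reaches the threshold
`T e` and adding `e` to the edges already accepted leaves a forest. -/
noncomputable def greedy {V E : Type} (ends : E → Sym2 V) (T : E → WithTop ℝ) (x : E → ℝ) :
    List E → Finset E → Finset E
  | [], F => F
  | e :: l, F => greedy ends T x l
      (if T e ≤ (x e : WithTop ℝ) ∧ IsForest ends (insert e F) then insert e F else F)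

section
variable {V E : Type} {ends : E → Sym2 V} {T : E → WithTop ℝ} {x : E → ℝ}

lemma gr_mono {F F' : Finset E} (h : F ⊆ F') : gr ends F ≤ gr ends F' :=
  SimpleGraph.fromEdgeSet_mono (Set.image_mono (by exact_mod_cast h))

lemma gr_adj {F : Finset E} {u v : V} : (gr ends F).Adj u v ↔ (∃ e ∈ F, ends e = s(u, v)) ∧ u ≠ v := by
  simp [gr, SimpleGraph.fromEdgeSet_adj]

open Classical in
lemma gr_insert {F : Finset E} {e : E} {u v : V} (he : ends e = s(u, v)) :
    gr ends (insert e F) = gr ends F ⊔ SimpleGraph.edge u v := by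
  ext a b
  rw [SimpleGraph.sup_adj, gr_adj, gr_adj, SimpleGraph.edge_adj]
  constructor
  · rintro ⟨⟨f, hf, hfe⟩, hab⟩
    rcases Finset.mem_insert.1 hf with rfl | hf
    · right
      rw [he] at hfe
      refine ⟨?_, hab⟩
      have := Sym2.eq_iff.1 hfe
      tauto
    · exact Or.inl ⟨⟨f, hf, hfe⟩, hab⟩
  · rintro (⟨⟨f, hf, hfe⟩, hab⟩ | ⟨h, hab⟩)
    · exact ⟨⟨f, Finset.mem_insert_of_mem hf, hfe⟩, hab⟩
    · refine ⟨⟨e, Finset.mem_insert_self _ _, ?_⟩, hab⟩
      rw [he]
      rcases h with ⟨rfl, rfl⟩ | ⟨rfl, rfl⟩
      · rfl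
      · exact Sym2.eq_swap

lemma subset_greedy (l : List E) (F : Finset E) : F ⊆ greedy ends T x l F := by
  classical
  induction l generalizing F with
  | nil => exact Finset.Subset.refl _
  | cons e l ih =>
    rw [greedy]
    split_ifs
    · exact (Finset.subset_insert _ _).trans (ih _)
    · exact ih _

lemma greedy_forest (l : List E) (F : Finset E) (hF : IsForest ends F) :
    IsForest ends (greedy ends T x l F) := by
  classical
  induction l generalizing F with
  | nil => exact hF
  | cons e l ih =>
    rw [greedy]
    split_ifs with h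
    · exact ih _ h.2
    · exact ih _ hF

lemma mem_greedy (l : List E) (F : Finset E) {e : E} (he : e ∈ greedy ends T x l F) :
    e ∈ F ∨ (e ∈ l ∧ T e ≤ (x e : WithTop ℝ)) := by
  classical
  induction l generalizing F with
  | nil => exact Or.inl he
  | cons e' l ih =>
    rw [greedy] at he
    split_ifs at he with h
    · rcases ih _ he with h1 | h1
      · rcases Finset.mem_insert.1 h1 with rfl | h2
        · exact Or.inr ⟨List.mem_cons_self, h.1⟩
        · exact Or.inl h2
      · exact Or.inr ⟨List.mem_cons_of_mem _ h1.1, h1.2⟩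
    · rcases ih _ he with h1 | h1
      · exact Or.inl h1
      · exact Or.inr ⟨List.mem_cons_of_mem _ h1.1, h1.2⟩

lemma greedy_append (l l' : List E) (F : Finset E) :
    greedy ends T x (l ++ l') F = greedy ends T x l' (greedy ends T x l F) := by
  classical
  induction l generalizing F with
  | nil => rfl
  | cons e l ih => rw [List.cons_append, greedy, greedy, ih]

lemma greedy_reach (hloop : ∀ e, ¬ (ends e).IsDiag) (l : List E) (F : Finset E)
    (hF : IsForest ends F) {e : E} (he : e ∈ l) (hT : T e ≤ (x e : WithTop ℝ)) {u v : V}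
    (huv : ends e = s(u, v)) : (gr ends (greedy ends T x l F)).Reachable u v := by
  classical
  have hne : u ≠ v := by
    intro h
    apply hloop e
    rw [huv, h]
    exact Sym2.mk_isDiag_iff.2 rfl
  induction l generalizing F with
  | nil => simp at he
  | cons e' l ih =>
    rw [greedy]
    rcases List.mem_cons.1 he with rfl | he'
    · split_ifs with h
      · have : (gr ends (insert e F)).Adj u v := by
          rw [gr_adj]
          exact ⟨⟨e, Finset.mem_insert_self _ _, huv⟩, hne⟩
        exact (this.reachable).mono (gr_mono (subset_greedy _ _))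
      · have h1 : ¬ IsForest ends (insert e F) := fun h' => h ⟨hT, h'⟩
        have h2 : (gr ends F).Reachable u v := by
          by_contra h3
          apply h1
          rw [IsForest, gr_insert huv]
          exact SimpleGraph.IsAcyclic.sup_edge_of_not_reachable h3 hF
        exact h2.mono (gr_mono (subset_greedy _ _))
    · split_ifs with h
      · exact ih _ h.2 he'
      · exact ih _ hF he'

lemma cyc (hinj : Function.Injective ends) (hloop : ∀ e, ¬ (ends e).IsDiag)
    {F F' : Finset E} (hF : IsForest ends F) (hsub : F' ⊆ F) {e e' : E} (he : e ∈ F) (he' : e' ∈ F)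
    (heF : e ∉ F') (heF' : e' ∉ F') {c a a' : V} (h1 : ends e = s(c, a)) (h2 : ends e' = s(c, a'))
    (haa : a ≠ a') (hr : (gr ends F').Reachable a a') : False := by
  classical
  have hne : ∀ {f : E} {u v : V}, ends f = s(u, v) → u ≠ v := by
    intro f u v hf h
    apply hloop f
    rw [hf, h]
    exact Sym2.mk_isDiag_iff.2 rfl
  have hadj : (gr ends F).Adj c a' := gr_adj.2 ⟨⟨e', he', h2⟩, hne h2⟩
  have hb := SimpleGraph.isAcyclic_iff_forall_adj_isBridge.1 hF hadj
  rw [SimpleGraph.isBridge_iff] at hb
  apply hb
  have hee : ends e ≠ ends e' := by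
    rw [h1, h2]
    intro h
    rcases Sym2.eq_iff.1 h with ⟨_, h⟩ | ⟨h, h'⟩
    · exact haa h
    · exact haa (h'.trans h)
  have hle : gr ends (insert e F') ≤ (gr ends F).deleteEdges {s(c, a')} := by
    intro u v huv
    obtain ⟨⟨f, hf, hfe⟩, huv'⟩ := gr_adj.1 huv
    rw [SimpleGraph.deleteEdges_adj]
    refine ⟨gr_adj.2 ⟨⟨f, ?_, hfe⟩, huv'⟩, ?_⟩
    · rcases Finset.mem_insert.1 hf with rfl | hf
      · exact he
      · exact hsub hf
    · rw [Set.mem_singleton_iff, ← hfe, ← h2]
      rcases Finset.mem_insert.1 hf with rfl | hf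
      · exact hee
      · intro h
        exact heF' (hinj h ▸ hf)
  have hca : (gr ends (insert e F')).Adj c a := gr_adj.2 ⟨⟨e, Finset.mem_insert_self _ _, h1⟩, hne h1⟩
  exact ((hca.reachable).trans (hr.mono (gr_mono (Finset.subset_insert _ _)))).mono hle

end

end Pool.Agent.Q288.Prophet
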