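import Pool.Agent.Q288.Prophet.Up

/-! The complete bipartite instance: a good forest. -/

open MeasureTheory ProbabilityTheory
open scoped BigOperators ENNReal

namespace Pool.Agent.Q288.Prophet

variable {N m : ℕ}

lemma reach_inv {V : Type} {H : SimpleGraph V} {φ : V → Prop}
    (h : ∀ u v, H.Adj u v → (φ u ↔ φ v)) {u v : V} (hr : H.Reachable u v) : φ u ↔ φ v := by
  obtain ⟨w⟩ := hr
  induction w with
  | nil => rfl
  | cons hadj _ ih => exact (h _ _ hadj).trans ih

open Classical in
/-- the star forest: `b` is joined to `α b`, `a` is joined to the hub `h a` -/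
noncomputable def starF (α : Fin N → Option (Fin m)) (h : Fin m → Bool) :
    Finset ((Fin N ⊕ Bool) × Fin m) :=
  Finset.univ.filter (fun e => (∃ b, e.1 = Sum.inl b ∧ α b = some e.2) ∨ e.1 = Sum.inr (h e.2))

lemma starF_forest (α : Fin N → Option (Fin m)) (h : Fin m → Bool) :
    IsForest (en N m) (starF α h) := by
  classical
  rw [IsForest, SimpleGraph.isAcyclic_iff_forall_isBridge]
  intro e he
  have he' : e ∈ (en N m '' (starF α h : Set _)) := by
    simp only [gr, SimpleGraph.edgeSet_fromEdgeSet, Set.mem_sdiff] at he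
    exact he.1
  obtain ⟨⟨y, a⟩, hf, rfl⟩ := he'
  simp only [starF, Finset.coe_filter, Finset.mem_univ, true_and, Set.mem_ofPred_eq] at hf
  change SimpleGraph.IsBridge _ s(Sum.inr y, Sum.inl a)
  rw [SimpleGraph.isBridge_iff]
  intro hr
  have hadj : ∀ u v, ((gr (en N m) (starF α h)).deleteEdges {s(Sum.inr y, Sum.inl a)}).Adj u v →
      ∃ y' a', (y', a') ≠ (y, a) ∧ ((∃ b, y' = Sum.inl b ∧ α b = some a') ∨ y' = Sum.inr (h a')) ∧
        ((u = Sum.inr y' ∧ v = Sum.inl a') ∨ (u = Sum.inl a' ∧ v = Sum.inr y')) := by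
    intro u v huv
    rw [SimpleGraph.deleteEdges_adj] at huv
    obtain ⟨⟨⟨y', a'⟩, hf', hfe⟩, huv'⟩ := gr_adj.1 huv.1
    have h1 := huv.2
    rw [Set.mem_singleton_iff, ← hfe] at h1
    refine ⟨y', a', ?_, ?_, ?_⟩
    · intro h2
      apply h1
      rw [h2]
      rfl
    · simpa [starF] using hf'
    · have := Sym2.eq_iff.1 hfe
      rcases this with ⟨h3, h4⟩ | ⟨h3, h4⟩
      · exact Or.inl ⟨h3.symm, h4.symm⟩
      · exact Or.inr ⟨h4.symm, h3.symm⟩
  rcases hf with ⟨b, hy, hb⟩ | hy
  · subst hy
    have key := reach_inv (φ := fun v => v = Sum.inr (Sum.inl b)) ?_ hr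
    · simp at key
    · intro u v huv
      obtain ⟨y', a', hne, hF, hc⟩ := hadj u v huv
      have hyb : y' ≠ Sum.inl b := by
        rintro rfl
        rcases hF with ⟨b', hb', hα⟩ | hF
        · simp only [Sum.inl.injEq] at hb'
          subst hb'
          rw [hb] at hα
          simp only [Option.some.injEq] at hα
          exact hne (by rw [hα])
        · simp at hF
      rcases hc with ⟨rfl, rfl⟩ | ⟨rfl, rfl⟩ <;> simp [hyb]
  · subst hy
    have key := reach_inv (φ := fun v => v = Sum.inl a ∨
      ∃ b, v = Sum.inr (Sum.inl b) ∧ α b = some a) ?_ hr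
    · simp at key
    · intro u v huv
      obtain ⟨y', a', hne, hF, hc⟩ := hadj u v huv
      have main : ((Sum.inr y' : Fin m ⊕ (Fin N ⊕ Bool)) = Sum.inl a ∨
          ∃ b, (Sum.inr y' : Fin m ⊕ (Fin N ⊕ Bool)) = Sum.inr (Sum.inl b) ∧ α b = some a) ↔
          ((Sum.inl a' : Fin m ⊕ (Fin N ⊕ Bool)) = Sum.inl a ∨
          ∃ b, (Sum.inl a' : Fin m ⊕ (Fin N ⊕ Bool)) = Sum.inr (Sum.inl b) ∧ α b = some a) := by
        rcases hF with ⟨b', hb', hα⟩ | hF
        · subst hb'
          simp [hα]
        · have : a' ≠ a := by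
            rintro rfl
            exact hne (by rw [hF])
          simp [hF, this]
      rcases hc with ⟨rfl, rfl⟩ | ⟨rfl, rfl⟩
      · exact main
      · exact main.symm

/-- The value collected by the prophet. -/
noncomputable def maxForest {V E : Type} (ends : E → Sym2 V) (x : E → ℝ) : ℝ :=
  ⨆ F : {F : Finset E // IsForest ends F}, ∑ e ∈ F.1, x e

lemma le_maxForest {V E : Type} [Finite E] {ends : E → Sym2 V} (x : E → ℝ) {F : Finset E}
    (hF : IsForest ends F) : ∑ e ∈ F, x e ≤ maxForest ends x := by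
  have : Finite {F : Finset E // IsForest ends F} := inferInstance
  exact le_ciSup (f := fun F : {F : Finset E // IsForest ends F} => ∑ e ∈ F.1, x e)
    (Set.finite_range _).bddAbove ⟨F, hF⟩

/-- the values in our instance -/
def xv (N m : ℕ) (v D : ℝ) (ω : (Fin N ⊕ Bool) → Fin m → Bool) : ((Fin N ⊕ Bool) × Fin m) → ℝ
  | (Sum.inl b, a) => if ω (Sum.inl b) a then v else 0
  | (Sum.inr false, _) => 1
  | (Sum.inr true, a) => if ω (Sum.inr true) a then D else 0

lemma opt_lower {v D : ℝ} (ω : (Fin N ⊕ Bool) → Fin m → Bool) :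
    (∑ b : Fin N, if (∀ a, ω (Sum.inl b) a = false) then 0 else v)
      + ∑ a : Fin m, (if ω (Sum.inr true) a then D else 1)
      ≤ maxForest (en N m) (xv N m v D ω) := by
  classical
  set α : Fin N → Option (Fin m) := fun b =>
    if hb : ∃ a, ω (Sum.inl b) a = true then some hb.choose else none with hα
  set h : Fin m → Bool := fun a => ω (Sum.inr true) a with hh
  have hα1 : ∀ b, (∃ a, ω (Sum.inl b) a = true) → ∃ a, α b = some a ∧ ω (Sum.inl b) a = true := by
    intro b hb
    refine ⟨hb.choose, ?_, hb.choose_spec⟩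
    simp only [hα, hb, dif_pos]
  have hα2 : ∀ b, (¬ ∃ a, ω (Sum.inl b) a = true) → α b = none := by
    intro b hb
    simp only [hα, hb, dif_neg, not_false_iff]
  refine le_trans ?_ (le_maxForest (xv N m v D ω) (starF_forest α h))
  have e1 : ∑ e ∈ starF α h, xv N m v D ω e
      = ∑ b : Fin N, ∑ a : Fin m, (if α b = some a then xv N m v D ω (Sum.inl b, a) else 0)
        + ∑ a : Fin m, xv N m v D ω (Sum.inr (h a), a) := by
    rw [starF, Finset.sum_filter, Fintype.sum_prod_type, Fintype.sum_sum_type, Fintype.sum_bool]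
    congr 1
    · refine Finset.sum_congr rfl (fun b _ => Finset.sum_congr rfl (fun a _ => ?_))
      simp
    · rw [← Finset.sum_add_distrib]
      refine Finset.sum_congr rfl (fun a _ => ?_)
      rcases Bool.eq_false_or_eq_true (h a) with h0 | h0 <;> simp [h0]
  rw [e1]
  refine add_le_add (Finset.sum_le_sum (fun b _ => ?_)) (Finset.sum_le_sum (fun a _ => ?_))
  · by_cases hb : ∃ a, ω (Sum.inl b) a = true
    · obtain ⟨a, ha, hω⟩ := hα1 b hb
      have : ¬ ∀ a, ω (Sum.inl b) a = false := by
        intro h'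
        rw [h' a] at hω
        simp at hω
      rw [if_neg this, Finset.sum_eq_single a]
      · simp [ha, xv, hω]
      · intro a' _ hne
        rw [if_neg]
        rw [ha]
        simpa using hne.symm
      · simp
    · have : ∀ a, ω (Sum.inl b) a = false := by
        intro a
        by_contra h'
        exact hb ⟨a, by simpa using h'⟩
      rw [if_pos this, hα2 b hb]
      simp
  · simp only [hh]
    rcases Bool.eq_false_or_eq_true (ω (Sum.inr true) a) with h0 | h0 <;> simp [h0, xv]

end Pool.Agent.Q288.Prophet
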