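import Pool.Agent.Q288.Prophet.Op

/-! The product space of the instance. -/

open MeasureTheory ProbabilityTheory
open scoped BigOperators ENNReal

namespace Pool.Agent.Q288.Prophet

/-- Bernoulli measure -/
noncomputable def bern (q : ℝ) : Measure Bool :=
  ENNReal.ofReal q • Measure.dirac true + ENNReal.ofReal (1 - q) • Measure.dirac false

lemma bern_true (q : ℝ) : bern q {true} = ENNReal.ofReal q := by
  simp [bern]

lemma bern_false (q : ℝ) : bern q {false} = ENNReal.ofReal (1 - q) := by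
  simp [bern]

lemma bern_prob {q : ℝ} (h0 : 0 ≤ q) (h1 : q ≤ 1) : IsProbabilityMeasure (bern q) := by
  constructor
  simp only [bern, Measure.coe_add, Measure.coe_smul, Pi.add_apply, Pi.smul_apply,
    measure_univ, smul_eq_mul, mul_one]
  rw [← ENNReal.ofReal_add h0 (by linarith)]
  simp

lemma integral_bern {q : ℝ} (h0 : 0 ≤ q) (h1 : q ≤ 1) (f : Bool → ℝ) :
    ∫ t, f t ∂bern q = q * f true + (1 - q) * f false := by
  have := bern_prob h0 h1
  rw [integral_fintype (Integrable.of_finite), Fintype.sum_bool]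
  simp only [measureReal_def, bern_true, bern_false, smul_eq_mul]
  rw [ENNReal.toReal_ofReal h0, ENNReal.toReal_ofReal (by linarith)]

/-- success probabilities -/
def qq (N : ℕ) (p ε : ℝ) : (Fin N ⊕ Bool) → ℝ
  | Sum.inl _ => p
  | Sum.inr false => 1
  | Sum.inr true => ε

/-- the law of a block -/
noncomputable def blk (m : ℕ) (q : ℝ) : Measure (Fin m → Bool) :=
  Measure.pi (fun _ : Fin m => bern q)

/-- the probability measure of the instance -/
noncomputable def mu (N m : ℕ) (p ε : ℝ) : Measure ((Fin N ⊕ Bool) → Fin m → Bool) :=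
  Measure.pi (fun y : Fin N ⊕ Bool => blk m (qq N p ε y))

section
variable {N m : ℕ} {p ε : ℝ}

lemma blk_prob {q : ℝ} (h0 : 0 ≤ q) (h1 : q ≤ 1) : IsProbabilityMeasure (blk m q) := by
  have := bern_prob h0 h1
  unfold blk
  infer_instance

lemma qq_mem (hp0 : 0 ≤ p) (hp1 : p ≤ 1) (he0 : 0 ≤ ε) (he1 : ε ≤ 1) (y : Fin N ⊕ Bool) :
    0 ≤ qq N p ε y ∧ qq N p ε y ≤ 1 := by
  rcases y with b | c
  · exact ⟨hp0, hp1⟩
  · cases c
    · simp [qq]
    · exact ⟨he0, he1⟩

lemma mu_prob (hp0 : 0 ≤ p) (hp1 : p ≤ 1) (he0 : 0 ≤ ε) (he1 : ε ≤ 1) :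
    IsProbabilityMeasure (mu N m p ε) := by
  have : ∀ y : Fin N ⊕ Bool, IsProbabilityMeasure (blk m (qq N p ε y)) :=
    fun y => blk_prob (qq_mem hp0 hp1 he0 he1 y).1 (qq_mem hp0 hp1 he0 he1 y).2
  unfold mu
  infer_instance

lemma integral_mu_blk (hp0 : 0 ≤ p) (hp1 : p ≤ 1) (he0 : 0 ≤ ε) (he1 : ε ≤ 1)
    (y : Fin N ⊕ Bool) (f : (Fin m → Bool) → ℝ) :
    ∫ ω, f (ω y) ∂mu N m p ε = ∫ w, f w ∂blk m (qq N p ε y) := by
  have : ∀ y : Fin N ⊕ Bool, IsProbabilityMeasure (blk m (qq N p ε y)) :=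
    fun y => blk_prob (qq_mem hp0 hp1 he0 he1 y).1 (qq_mem hp0 hp1 he0 he1 y).2
  unfold mu
  exact integral_comp_eval (μ := fun y : Fin N ⊕ Bool => blk m (qq N p ε y)) (i := y) (f := f)
    (by fun_prop)

lemma integral_mu_coord (hp0 : 0 ≤ p) (hp1 : p ≤ 1) (he0 : 0 ≤ ε) (he1 : ε ≤ 1)
    (y : Fin N ⊕ Bool) (a : Fin m) (f : Bool → ℝ) :
    ∫ ω, f (ω y a) ∂mu N m p ε = qq N p ε y * f true + (1 - qq N p ε y) * f false := by
  have hq := qq_mem hp0 hp1 he0 he1 y
  have := bern_prob hq.1 hq.2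
  rw [integral_mu_blk hp0 hp1 he0 he1 y (fun w => f (w a))]
  unfold blk
  rw [integral_comp_eval (μ := fun _ : Fin m => bern (qq N p ε y)) (i := a) (f := f)
    (by fun_prop), integral_bern hq.1 hq.2]

lemma blk_false (hp0 : 0 ≤ p) (hp1 : p ≤ 1) :
    blk m p {w | ∀ a, w a = false} = ENNReal.ofReal ((1 - p) ^ m) := by
  have := bern_prob hp0 hp1
  have : {w : Fin m → Bool | ∀ a, w a = false} = Set.pi Set.univ (fun _ => {false}) := by
    ext w
    simp [Set.mem_pi]
  rw [this, blk, Measure.pi_pi]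
  simp only [bern_false, Finset.prod_const, Finset.card_univ, Fintype.card_fin]
  rw [ENNReal.ofReal_pow (by linarith)]

lemma integral_active (hp0 : 0 ≤ p) (hp1 : p ≤ 1) (he0 : 0 ≤ ε) (he1 : ε ≤ 1) (b : Fin N) (v : ℝ) :
    ∫ ω, (if (∀ a, ω (Sum.inl b) a = false) then 0 else v) ∂mu N m p ε = v * (1 - (1 - p) ^ m) := by
  classical
  rw [integral_mu_blk hp0 hp1 he0 he1 (Sum.inl b) (fun w => if (∀ a, w a = false) then 0 else v)]
  change ∫ w, _ ∂blk m p = _
  have := blk_prob (m := m) hp0 hp1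
  have h1 : ∀ w : Fin m → Bool, (if (∀ a, w a = false) then (0 : ℝ) else v)
      = v - v * Set.indicator {w : Fin m → Bool | ∀ a, w a = false} (fun _ => (1 : ℝ)) w := by
    intro w
    by_cases h : ∀ a, w a = false
    · rw [if_pos h, Set.indicator_of_mem (show w ∈ {w : Fin m → Bool | ∀ a, w a = false} from h)]
      ring
    · rw [if_neg h, Set.indicator_of_notMem (show w ∉ {w : Fin m → Bool | ∀ a, w a = false} from h)]
      ring
  simp_rw [h1]
  rw [integral_sub (Integrable.of_finite) (Integrable.of_finite), integral_const_mul,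
    integral_indicator_const _ (Set.toFinite _).measurableSet]
  simp only [integral_const, measureReal_def, measure_univ, ENNReal.toReal_one, smul_eq_mul,
    one_mul, mul_one]
  rw [blk_false hp0 hp1, ENNReal.toReal_ofReal (pow_nonneg (by linarith) _)]
  ring

lemma blk_pair (hp0 : 0 ≤ p) (hp1 : p ≤ 1) {a a' : Fin m} (hne : a ≠ a') :
    blk m p {w | ¬ (w a = true ∧ w a' = true)} = ENNReal.ofReal (1 - p ^ 2) := by
  classical
  have := bern_prob hp0 hp1
  have := blk_prob (m := m) hp0 hp1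
  have h1 : blk m p {w | w a = true ∧ w a' = true} = ENNReal.ofReal (p ^ 2) := by
    have : {w : Fin m → Bool | w a = true ∧ w a' = true}
        = Set.pi Set.univ (fun i => if i = a ∨ i = a' then {true} else Set.univ) := by
      ext w
      simp only [Set.mem_ofPred_eq, Set.mem_pi, Set.mem_univ, true_implies]
      constructor
      · rintro ⟨h, h'⟩ i
        split_ifs with hi
        · rcases hi with rfl | rfl
          · exact h
          · exact h'
        · trivial
      · intro h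
        have h2 := h a
        have h3 := h a'
        rw [if_pos (Or.inl rfl)] at h2
        rw [if_pos (Or.inr rfl)] at h3
        exact ⟨h2, h3⟩
    rw [this, blk, Measure.pi_pi]
    have h4 : ∀ i : Fin m, bern p (if i = a ∨ i = a' then {true} else Set.univ)
        = if i ∈ ({a, a'} : Finset (Fin m)) then ENNReal.ofReal p else 1 := by
      intro i
      by_cases hi : i = a ∨ i = a'
      · rw [if_pos hi, if_pos (by simpa using hi), bern_true]
      · rw [if_neg hi, if_neg (by simpa using hi), measure_univ]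
    simp_rw [h4]
    rw [Finset.prod_ite_mem, Finset.univ_inter, Finset.prod_const, Finset.card_pair hne,
      ENNReal.ofReal_pow hp0]
  have h5 : {w : Fin m → Bool | ¬ (w a = true ∧ w a' = true)}
      = {w : Fin m → Bool | w a = true ∧ w a' = true}ᶜ := rfl
  rw [h5, prob_compl_eq_one_sub (Set.toFinite _).measurableSet, h1,
    ENNReal.ofReal_sub _ (by positivity), ENNReal.ofReal_one]

lemma mu_pair (hp0 : 0 ≤ p) (hp1 : p ≤ 1) (he0 : 0 ≤ ε) (he1 : ε ≤ 1) {a a' : Fin m}
    (hne : a ≠ a') (B : Finset (Fin N)) :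
    mu N m p ε {ω | ∀ b ∈ B, ¬ (ω (Sum.inl b) a = true ∧ ω (Sum.inl b) a' = true)}
      = ENNReal.ofReal ((1 - p ^ 2) ^ B.card) := by
  classical
  have : ∀ y : Fin N ⊕ Bool, IsProbabilityMeasure (blk m (qq N p ε y)) :=
    fun y => blk_prob (qq_mem hp0 hp1 he0 he1 y).1 (qq_mem hp0 hp1 he0 he1 y).2
  have h1 : {ω : (Fin N ⊕ Bool) → Fin m → Bool |
        ∀ b ∈ B, ¬ (ω (Sum.inl b) a = true ∧ ω (Sum.inl b) a' = true)}
      = Set.pi Set.univ (fun y => if ∃ b ∈ B, y = Sum.inl b then
          {w : Fin m → Bool | ¬ (w a = true ∧ w a' = true)} else Set.univ) := by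
    ext ω
    simp only [Set.mem_ofPred_eq, Set.mem_pi, Set.mem_univ, true_implies]
    constructor
    · intro h y
      split_ifs with hy
      · obtain ⟨b, hb, rfl⟩ := hy
        exact h b hb
      · trivial
    · intro h b hb
      have h2 := h (Sum.inl b)
      rw [if_pos ⟨b, hb, rfl⟩] at h2
      exact h2
  rw [h1, mu, Measure.pi_pi, Fintype.prod_sum_type, Fintype.prod_bool]
  have h2 : ∀ c : Bool, blk m (qq N p ε (Sum.inr c)) (if ∃ b ∈ B, (Sum.inr c : Fin N ⊕ Bool) = Sum.inl b then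
          {w : Fin m → Bool | ¬ (w a = true ∧ w a' = true)} else Set.univ) = 1 := by
    intro c
    rw [if_neg (by simp), measure_univ]
  rw [h2, h2]
  have h3 : ∀ b : Fin N, blk m (qq N p ε (Sum.inl b)) (if ∃ b' ∈ B, (Sum.inl b : Fin N ⊕ Bool) = Sum.inl b' then
          {w : Fin m → Bool | ¬ (w a = true ∧ w a' = true)} else Set.univ)
        = if b ∈ B then ENNReal.ofReal (1 - p ^ 2) else 1 := by
    intro b
    by_cases hb : b ∈ B
    · rw [if_pos ⟨b, hb, rfl⟩, if_pos hb]
      exact blk_pair hp0 hp1 hne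
    · rw [if_neg (by simpa using hb), if_neg hb, measure_univ]
  simp_rw [h3]
  rw [Finset.prod_ite_mem, Finset.univ_inter, Finset.prod_const, ENNReal.ofReal_pow (by nlinarith)]
  simp

end

end Pool.Agent.Q288.Prophet
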