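import Pool.Agent.Q288.Prophet.Gr

/-! The complete bipartite instance: pathwise bounds. -/

open MeasureTheory ProbabilityTheory
open scoped BigOperators ENNReal

namespace Pool.Agent.Q288.Prophet

variable {N m : ℕ}

/-- endpoints of the edge `(y, a)` of the complete bipartite graph -/
def en (N m : ℕ) : ((Fin N ⊕ Bool) × Fin m) → Sym2 (Fin m ⊕ (Fin N ⊕ Bool)) :=
  fun e => s(Sum.inr e.1, Sum.inl e.2)

lemma en_inj : Function.Injective (en N m) := by
  rintro ⟨y, a⟩ ⟨y', a'⟩ h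
  simp only [en, Sym2.eq_iff] at h
  rcases h with ⟨h, h'⟩ | ⟨h, h'⟩
  · simp at h h'
    simp [h, h']
  · simp at h

lemma en_loop (e : (Fin N ⊕ Bool) × Fin m) : ¬ (en N m e).IsDiag := by
  simp [en]

lemma sum_split (A : Finset ((Fin N ⊕ Bool) × Fin m)) (x : ((Fin N ⊕ Bool) × Fin m) → ℝ) :
    ∑ e ∈ A, x e
      = ∑ p ∈ Finset.univ.filter (fun p : Fin N × Fin m => (Sum.inl p.1, p.2) ∈ A),
          x (Sum.inl p.1, p.2)
        + ∑ a ∈ Finset.univ.filter (fun a : Fin m => (Sum.inr false, a) ∈ A), x (Sum.inr false, a)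
        + ∑ a ∈ Finset.univ.filter (fun a : Fin m => (Sum.inr true, a) ∈ A), x (Sum.inr true, a) := by
  rw [Finset.sum_filter, Finset.sum_filter, Finset.sum_filter, Fintype.sum_prod_type]
  have : ∑ e ∈ A, x e = ∑ e, if e ∈ A then x e else 0 := by simp
  rw [this, Fintype.sum_prod_type, Fintype.sum_sum_type, Fintype.sum_bool]
  ring

lemma path_bound {l1 l2 l3 : List ((Fin N ⊕ Bool) × Fin m)}
    (h1 : ∀ e, e ∈ l1 ↔ ∃ b, e.1 = Sum.inl b) (h2 : ∀ e, e ∈ l2 ↔ e.1 = Sum.inr false)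
    (h3 : ∀ e, e ∈ l3 ↔ e.1 = Sum.inr true)
    (T : ((Fin N ⊕ Bool) × Fin m) → WithTop ℝ) (x : ((Fin N ⊕ Bool) × Fin m) → ℝ)
    (hx : ∀ e, 0 ≤ x e) (D : ℝ) (hD0 : 0 ≤ D) (hD : ∀ a, x (Sum.inr true, a) ≤ D)
    (hone : ∀ a, x (Sum.inr false, a) = 1) (H1 : Finset (Fin N × Fin m))
    (hH1 : ∀ b a, T (Sum.inl b, a) ≤ (x (Sum.inl b, a) : WithTop ℝ) → (b, a) ∈ H1)
    (H2 : Finset (Fin m)) (hH2 : ∀ a, a ∈ H2 ↔ T (Sum.inr false, a) ≤ ((1 : ℝ) : WithTop ℝ))
    (S : Finset (Fin m)) (hS : ∀ a ∈ S, ∀ a' ∈ S, a ≠ a' → ∃ b,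
      T (Sum.inl b, a) ≤ (x (Sum.inl b, a) : WithTop ℝ) ∧
      T (Sum.inl b, a') ≤ (x (Sum.inl b, a') : WithTop ℝ)) :
    ∑ e ∈ greedy (en N m) T x (l1 ++ l2 ++ l3) ∅, x e
      ≤ ∑ p ∈ H1, x (Sum.inl p.1, p.2) + (((H2 \ S).card : ℝ) + 1)
        + (2 * D + ∑ a ∈ Finset.univ \ (H2 ∪ S), x (Sum.inr true, a)) := by
  classical
  have hf0 : IsForest (en N m) (∅ : Finset ((Fin N ⊕ Bool) × Fin m)) := by
    simp [IsForest, gr]
  set A1 := greedy (en N m) T x l1 ∅ with hA1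
  set A2 := greedy (en N m) T x l2 A1 with hA2
  set A := greedy (en N m) T x (l1 ++ l2 ++ l3) ∅ with hA
  have hAA : A = greedy (en N m) T x l3 A2 := by
    rw [hA, greedy_append, greedy_append]
  have hf1 : IsForest (en N m) A1 := greedy_forest _ _ hf0
  have hf2 : IsForest (en N m) A2 := greedy_forest _ _ hf1
  have hf : IsForest (en N m) A := greedy_forest _ _ hf0
  have hs1 : A1 ⊆ A2 := subset_greedy _ _
  have hs2 : A2 ⊆ A := by rw [hAA]; exact subset_greedy _ _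
  have hm1 : ∀ e ∈ A1, ∃ b, e.1 = Sum.inl b := by
    intro e he
    rcases mem_greedy _ _ he with h | h
    · simp at h
    · exact (h1 e).1 h.1
  have hm2 : ∀ e ∈ A2, (∃ b, e.1 = Sum.inl b) ∨ e.1 = Sum.inr false := by
    intro e he
    rcases mem_greedy _ _ he with h | h
    · exact Or.inl (hm1 e h)
    · exact Or.inr ((h2 e).1 h.1)
  have hact : ∀ e ∈ A, T e ≤ (x e : WithTop ℝ) := by
    intro e he
    rcases mem_greedy _ _ he with h | h
    · simp at h
    · exact h.2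
  -- vertices of S are connected by the edges accepted first
  have hreach1 : ∀ a ∈ S, ∀ a' ∈ S, a ≠ a' →
      (gr (en N m) A1).Reachable (Sum.inl a) (Sum.inl a') := by
    intro a ha a' ha' hne
    obtain ⟨b, hb, hb'⟩ := hS a ha a' ha' hne
    have r1 : (gr (en N m) A1).Reachable (Sum.inr (Sum.inl b)) (Sum.inl a) :=
      greedy_reach en_loop l1 ∅ hf0 ((h1 _).2 ⟨b, rfl⟩) hb rfl
    have r2 : (gr (en N m) A1).Reachable (Sum.inr (Sum.inl b)) (Sum.inl a') :=
      greedy_reach en_loop l1 ∅ hf0 ((h1 _).2 ⟨b, rfl⟩) hb' rfl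
    exact r1.symm.trans r2
  have hreach2 : ∀ a ∈ H2, (gr (en N m) A2).Reachable (Sum.inr (Sum.inr false)) (Sum.inl a) := by
    intro a ha
    refine greedy_reach en_loop l2 A1 hf1 ((h2 (Sum.inr false, a)).2 rfl) ?_ rfl
    rw [hone]
    exact (hH2 a).1 ha
  -- at most one hub edge into `S`, for each hub
  have hone1 : ∀ c : Bool, ∀ a ∈ S, ∀ a' ∈ S, (Sum.inr c, a) ∈ A → (Sum.inr c, a') ∈ A → a = a' := by
    intro c a ha a' ha' hc hc'
    by_contra hne
    refine cyc en_inj en_loop hf (hs1.trans hs2) hc hc' ?_ ?_ rfl rfl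
      (by simpa using hne) (hreach1 a ha a' ha' hne)
    · intro h
      obtain ⟨b, hb⟩ := hm1 _ h
      simp at hb
    · intro h
      obtain ⟨b, hb⟩ := hm1 _ h
      simp at hb
  have hone2 : ∀ a ∈ H2, ∀ a' ∈ H2, (Sum.inr true, a) ∈ A → (Sum.inr true, a') ∈ A → a = a' := by
    intro a ha a' ha' hc hc'
    by_contra hne
    refine cyc en_inj en_loop hf hs2 hc hc' ?_ ?_ rfl rfl
      (by simpa using hne) ((hreach2 a ha).symm.trans (hreach2 a' ha'))
    · intro h
      rcases hm2 _ h with ⟨b, hb⟩ | hb <;> simp at hb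
    · intro h
      rcases hm2 _ h with ⟨b, hb⟩ | hb <;> simp at hb
  have hcard : ∀ P : Finset (Fin m), (∀ a ∈ P, ∀ a' ∈ P, a = a') → P.card ≤ 1 := by
    intro P hP
    exact Finset.card_le_one.2 hP
  rw [sum_split]
  refine add_le_add (add_le_add ?_ ?_) ?_
  · refine Finset.sum_le_sum_of_subset_of_nonneg ?_ (fun _ _ _ => hx _)
    rintro ⟨b, a⟩ h
    simp only [Finset.mem_filter, Finset.mem_univ, true_and] at h
    exact hH1 b a (hact _ h)
  · rw [Finset.sum_congr rfl (fun a _ => hone a)]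
    simp only [Finset.sum_const, nsmul_eq_mul, mul_one]
    set P := Finset.univ.filter (fun a : Fin m => ((Sum.inr false : Fin N ⊕ Bool), a) ∈ A) with hP
    have hPH : P ⊆ H2 := by
      intro a ha
      simp only [hP, Finset.mem_filter, Finset.mem_univ, true_and] at ha
      have := hact _ ha
      rw [hone] at this
      exact (hH2 a).2 this
    have h4 : P ⊆ (H2 \ S) ∪ (P ∩ S) := by
      intro a ha
      by_cases haS : a ∈ S
      · exact Finset.mem_union_right _ (Finset.mem_inter.2 ⟨ha, haS⟩)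
      · exact Finset.mem_union_left _ (Finset.mem_sdiff.2 ⟨hPH ha, haS⟩)
    have h5 : (P ∩ S).card ≤ 1 := by
      apply hcard
      intro a ha a' ha'
      simp only [hP, Finset.mem_inter, Finset.mem_filter, Finset.mem_univ, true_and] at ha ha'
      exact hone1 false a ha.2 a' ha'.2 ha.1 ha'.1
    have h6 := (Finset.card_le_card h4).trans (Finset.card_union_le _ _)
    have h7 : P.card ≤ (H2 \ S).card + 1 := by omega
    exact_mod_cast h7
  · set P := Finset.univ.filter (fun a : Fin m => ((Sum.inr true : Fin N ⊕ Bool), a) ∈ A) with hP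
    have h5 : (P ∩ S).card ≤ 1 := by
      apply hcard
      intro a ha a' ha'
      simp only [hP, Finset.mem_inter, Finset.mem_filter, Finset.mem_univ, true_and] at ha ha'
      exact hone1 true a ha.2 a' ha'.2 ha.1 ha'.1
    have h6 : (P ∩ H2).card ≤ 1 := by
      apply hcard
      intro a ha a' ha'
      simp only [hP, Finset.mem_inter, Finset.mem_filter, Finset.mem_univ, true_and] at ha ha'
      exact hone2 a ha.2 a' ha'.2 ha.1 ha'.1
    have hsm : ∀ Q : Finset (Fin m), Q.card ≤ 1 → ∑ a ∈ Q, x (Sum.inr true, a) ≤ D := by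
      intro Q hQ
      have h8 := Finset.sum_le_card_nsmul Q (fun a => x ((Sum.inr true : Fin N ⊕ Bool), a)) D
        (fun a _ => hD a)
      have h9 : (Q.card : ℝ) ≤ 1 := by exact_mod_cast hQ
      rw [nsmul_eq_mul] at h8
      nlinarith
    have h7 : P ⊆ ((P ∩ S) ∪ (P ∩ H2)) ∪ (Finset.univ \ (H2 ∪ S)) := by
      intro a ha
      simp only [Finset.mem_union, Finset.mem_inter, Finset.mem_sdiff, Finset.mem_univ, true_and]
      tauto
    have hnn : ∀ a : Fin m, 0 ≤ x ((Sum.inr true : Fin N ⊕ Bool), a) := fun a => hx _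
    have hun : ∀ Q R : Finset (Fin m), ∑ a ∈ Q ∪ R, x ((Sum.inr true : Fin N ⊕ Bool), a)
        ≤ ∑ a ∈ Q, x ((Sum.inr true : Fin N ⊕ Bool), a)
          + ∑ a ∈ R, x ((Sum.inr true : Fin N ⊕ Bool), a) := by
      intro Q R
      rw [← Finset.sum_union_inter]
      have : 0 ≤ ∑ a ∈ Q ∩ R, x ((Sum.inr true : Fin N ⊕ Bool), a) :=
        Finset.sum_nonneg (fun a _ => hnn a)
      linarith
    calc ∑ a ∈ P, x ((Sum.inr true : Fin N ⊕ Bool), a)
        ≤ ∑ a ∈ ((P ∩ S) ∪ (P ∩ H2)) ∪ (Finset.univ \ (H2 ∪ S)),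
            x ((Sum.inr true : Fin N ⊕ Bool), a) :=
          Finset.sum_le_sum_of_subset_of_nonneg h7 (fun _ _ _ => hnn _)
      _ ≤ 2 * D + ∑ a ∈ Finset.univ \ (H2 ∪ S), x ((Sum.inr true : Fin N ⊕ Bool), a) := by
          have e1 := hun ((P ∩ S) ∪ (P ∩ H2)) (Finset.univ \ (H2 ∪ S))
          have e2 := hun (P ∩ S) (P ∩ H2)
          have e3 := hsm _ h5
          have e4 := hsm _ h6
          linarith

lemma path_bound_bad {l : List ((Fin N ⊕ Bool) × Fin m)}
    (T : ((Fin N ⊕ Bool) × Fin m) → WithTop ℝ) (x : ((Fin N ⊕ Bool) × Fin m) → ℝ)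
    (hx : ∀ e, 0 ≤ x e) (D : ℝ) (hD0 : 0 ≤ D) (hD : ∀ a, x (Sum.inr true, a) ≤ D)
    (hone : ∀ a, x (Sum.inr false, a) = 1) (H1 : Finset (Fin N × Fin m))
    (hH1 : ∀ b a, T (Sum.inl b, a) ≤ (x (Sum.inl b, a) : WithTop ℝ) → (b, a) ∈ H1) :
    ∑ e ∈ greedy (en N m) T x l ∅, x e
      ≤ ∑ p ∈ H1, x (Sum.inl p.1, p.2) + (m + m * D) := by
  classical
  have hact : ∀ e ∈ greedy (en N m) T x l ∅, T e ≤ (x e : WithTop ℝ) := by
    intro e he
    rcases mem_greedy _ _ he with h | h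
    · simp at h
    · exact h.2
  rw [sum_split, add_assoc]
  refine add_le_add ?_ (add_le_add ?_ ?_)
  · refine Finset.sum_le_sum_of_subset_of_nonneg ?_ (fun _ _ _ => hx _)
    rintro ⟨b, a⟩ h
    simp only [Finset.mem_filter, Finset.mem_univ, true_and] at h
    exact hH1 b a (hact _ h)
  · rw [Finset.sum_congr rfl (fun a _ => hone a)]
    simp only [Finset.sum_const, nsmul_eq_mul, mul_one]
    have := Finset.card_le_univ
      (Finset.univ.filter (fun a : Fin m => ((Sum.inr false : Fin N ⊕ Bool), a)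
        ∈ greedy (en N m) T x l ∅))
    rw [Fintype.card_fin] at this
    exact_mod_cast this
  · set P := Finset.univ.filter (fun a : Fin m => ((Sum.inr true : Fin N ⊕ Bool), a)
      ∈ greedy (en N m) T x l ∅) with hP
    have h8 := Finset.sum_le_card_nsmul P (fun a => x ((Sum.inr true : Fin N ⊕ Bool), a)) D
        (fun a _ => hD a)
    have := Finset.card_le_univ P
    rw [Fintype.card_fin] at this
    have h9 : (P.card : ℝ) ≤ m := by exact_mod_cast this
    rw [nsmul_eq_mul] at h8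
    nlinarith

end Pool.Agent.Q288.Prophet
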